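import Pool.Agent.helper52.FS.SpecE

/-!
# Row `fs:CNT` (MP_07c750, project FS): the number of small subsets
-/

open scoped MatrixGroups ContDiff Topology UpperHalfPlane ComplexConjugate
open UpperHalfPlane MeasureTheory Filter Set

set_option autoImplicit false

namespace Pool.Agent.FS

theorem CNT_proof : CNT_stmt := by
  intro η hη
  refine ⟨min (1 / 8) (η ^ 2 / 8), lt_min (by norm_num) (by positivity), (min_le_left _ _).trans_lt (by norm_num), fun ε n hε hε0 => ?_⟩
  have hε2 : ε ≤ η ^ 2 / 8 := hε0.trans (min_le_right _ _)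
  obtain ⟨L, hL⟩ : ∃ L : ℝ, L = 2 / η := ⟨_, rfl⟩
  have hL0 : 0 < L := by rw [hL]; positivity
  obtain ⟨x, hx⟩ : ∃ x : ℝ, x = Real.exp (-L) := ⟨_, rfl⟩
  have hx0 : 0 < x := by rw [hx]; exact Real.exp_pos _
  have hxη : x ≤ η / 2 := by
    have h1 : 2 / η ≤ Real.exp L := by
      have := Real.add_one_le_exp L
      rw [← hL]
      linarith
    rw [hx, Real.exp_neg]
    have h2 : (Real.exp L)⁻¹ ≤ (2 / η)⁻¹ := inv_anti₀ (by positivity) h1
    rwa [inv_div] at h2
  set F : Finset (Finset ℕ) := (Finset.range n).powerset.filter fun B : Finset ℕ => (B.card : ℝ) ≤ 2 * ε * n with hF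
  have h1 : (F.card : ℝ) * Real.exp (-(L * (2 * ε * n))) ≤ ∑ B ∈ (Finset.range n).powerset, x ^ B.card := by
    have h2 : (F.card : ℝ) * Real.exp (-(L * (2 * ε * n))) = ∑ B ∈ F, Real.exp (-(L * (2 * ε * n))) := by
      rw [Finset.sum_const, nsmul_eq_mul]
    rw [h2]
    have h3 : ∑ B ∈ F, Real.exp (-(L * (2 * ε * n))) ≤ ∑ B ∈ F, x ^ B.card := by
      refine Finset.sum_le_sum fun B hB => ?_
      have h4 := (Finset.mem_filter.1 hB).2
      rw [hx, ← Real.exp_nat_mul]
      refine Real.exp_le_exp.2 ?_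
      have := mul_le_mul_of_nonneg_left h4 hL0.le
      linarith
    exact h3.trans (Finset.sum_le_sum_of_subset_of_nonneg (Finset.filter_subset _ _) fun _ _ _ => by positivity)
  have h5 : ∑ B ∈ (Finset.range n).powerset, x ^ B.card = (x + 1) ^ n := by
    have := Finset.sum_pow_mul_eq_add_pow x 1 (Finset.range n)
    simp only [one_pow, mul_one, Finset.card_range] at this
    exact this
  have h6 : (x + 1) ^ n ≤ Real.exp (n * (η / 2)) := by
    rw [Real.exp_nat_mul]
    exact pow_le_pow_left₀ (by linarith) ((Real.add_one_le_exp x).trans (Real.exp_le_exp.2 hxη)) n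
  have h7 : (F.card : ℝ) * Real.exp (-(L * (2 * ε * n))) ≤ Real.exp (n * (η / 2)) := by
    rw [h5] at h1
    exact h1.trans h6
  have h8 : (F.card : ℝ) ≤ Real.exp (n * (η / 2)) * Real.exp (L * (2 * ε * n)) := by
    have h9 : (F.card : ℝ) = (F.card : ℝ) * Real.exp (-(L * (2 * ε * n))) * Real.exp (L * (2 * ε * n)) := by
      rw [mul_assoc, ← Real.exp_add]
      simp
    rw [h9]
    exact mul_le_mul_of_nonneg_right h7 (Real.exp_pos _).le
  refine h8.trans ?_
  rw [← Real.exp_add]
  refine Real.exp_le_exp.2 ?_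
  have h10 : L * (2 * ε * n) ≤ η / 2 * n := by
    have h11 : L * (2 * ε) ≤ η / 2 := by
      rw [hL]
      calc 2 / η * (2 * ε) ≤ 2 / η * (2 * (η ^ 2 / 8)) := by
            refine mul_le_mul_of_nonneg_left ?_ (by positivity)
            linarith
        _ = η / 2 := by field_simp; ring
    have := mul_le_mul_of_nonneg_right h11 (Nat.cast_nonneg n : (0 : ℝ) ≤ n)
    linarith
  linarith

end Pool.Agent.FS
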