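import Pool.Agent.helper78.FS.Spec

set_option autoImplicit false

namespace Pool.Agent.helper78.FS

open Finset Real
open Classical

noncomputable section

theorem IND_normsq (a : E3) : ‖a‖ ^ 2 = a 0 ^ 2 + a 1 ^ 2 + a 2 ^ 2 := by
  rw [EuclideanSpace.norm_sq_eq, Fin.sum_univ_three]
  simp [Real.norm_eq_abs, sq_abs]

theorem IND_frame (t : ℝ) (a : E3) : xc t a ^ 2 + yc a ^ 2 + zc t a ^ 2 = ‖a‖ ^ 2 := by
  rw [IND_normsq]
  unfold xc yc zc
  have h := Real.sin_sq_add_cos_sq t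
  linear_combination (a 0 ^ 2 + a 2 ^ 2) * h

theorem IND_xsub (t : ℝ) (a b : E3) : xc t (a - b) = xc t a - xc t b := by
  unfold xc; simp only [PiLp.sub_apply]; ring

theorem IND_zsub (t : ℝ) (a b : E3) : zc t (a - b) = zc t a - zc t b := by
  unfold zc; simp only [PiLp.sub_apply]; ring

theorem IND_xle (t : ℝ) (a b : E3) (L : ℝ) (h : dist a b ≤ L) : |xc t a - xc t b| ≤ L := by
  rw [← IND_xsub]
  have h1 := IND_frame t (a - b)
  rw [dist_eq_norm] at h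
  apply le_trans _ h
  apply abs_le_of_sq_le_sq _ (norm_nonneg _)
  nlinarith [sq_nonneg (yc (a - b)), sq_nonneg (zc t (a - b))]

theorem IND_zle (t : ℝ) (a b : E3) (L : ℝ) (h : dist a b ≤ L) : |zc t a - zc t b| ≤ L := by
  rw [← IND_zsub]
  have h1 := IND_frame t (a - b)
  rw [dist_eq_norm] at h
  apply le_trans _ h
  apply abs_le_of_sq_le_sq _ (norm_nonneg _)
  nlinarith [sq_nonneg (yc (a - b)), sq_nonneg (xc t (a - b))]

theorem IND_rot (t : ℝ) (w : E3) : xc t w = cos t * xc 0 w - sin t * zc 0 w ∧ xc 0 w = cos t * xc t w + sin t * zc t w := by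
  unfold xc zc
  have h := Real.sin_sq_add_cos_sq t
  constructor
  · simp
  · simp only [Real.cos_zero, Real.sin_zero]
    linear_combination (- w 0) * h

/-- the crossing point -/
theorem IND_cross (a b : E3) (h : (yc a < 0 ∧ 0 ≤ yc b) ∨ (yc b < 0 ∧ 0 ≤ yc a)) :
    ∃ (l m : ℝ), 0 ≤ l ∧ 0 ≤ m ∧ l + m = 1 ∧ yc (l • a + m • b) = 0 ∧
      (∀ t, (crs t a b ∨ crs t b a) ↔ 0 < xc t (l • a + m • b)) ∧
      (∀ t, (crt t a b ∨ crt t b a) ↔ (0 < xc 0 (l • a + m • b) ∧ ¬ 0 < xc t (l • a + m • b))) := by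
  have hx : ∀ (t l m : ℝ), xc t (l • a + m • b) = l * xc t a + m * xc t b := by
    intro t l m
    unfold xc
    simp only [PiLp.add_apply, PiLp.smul_apply, smul_eq_mul]
    ring
  have hy : ∀ (l m : ℝ), yc (l • a + m • b) = l * yc a + m * yc b := by
    intro l m
    unfold yc
    simp only [PiLp.add_apply, PiLp.smul_apply, smul_eq_mul]
  rcases h with ⟨h1, h2⟩ | ⟨h1, h2⟩
  · have hd : 0 < yc b - yc a := by linarith
    have key : ∀ t, xc t ((yc b / (yc b - yc a)) • a + (- yc a / (yc b - yc a)) • b) =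
        (yc b * xc t a - yc a * xc t b) / (yc b - yc a) := by
      intro t
      rw [hx]
      field_simp
      ring
    refine ⟨yc b / (yc b - yc a), - yc a / (yc b - yc a), by positivity, div_nonneg (by linarith) hd.le, ?_, ?_, ?_, ?_⟩
    · field_simp
      ring
    · rw [hy]
      field_simp
      ring
    · intro t
      rw [key]
      rw [div_pos_iff_of_pos_right hd]
      unfold crs
      constructor
      · rintro (⟨_, _, h⟩ | ⟨h, _, _⟩)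
        · exact h
        · linarith
      · intro h
        exact Or.inl ⟨h1, h2, h⟩
    · intro t
      rw [key, key]
      rw [div_pos_iff_of_pos_right hd, div_pos_iff_of_pos_right hd]
      unfold crt
      constructor
      · rintro (⟨_, _, h, h'⟩ | ⟨h, _, _⟩)
        · exact ⟨h, not_lt.2 h'⟩
        · linarith
      · rintro ⟨h, h'⟩
        exact Or.inl ⟨h1, h2, h, not_lt.1 h'⟩
  · have hd : 0 < yc a - yc b := by linarith
    have key : ∀ t, xc t ((- yc b / (yc a - yc b)) • a + (yc a / (yc a - yc b)) • b) =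
        (yc a * xc t b - yc b * xc t a) / (yc a - yc b) := by
      intro t
      rw [hx]
      field_simp
      ring
    refine ⟨- yc b / (yc a - yc b), yc a / (yc a - yc b), div_nonneg (by linarith) hd.le, by positivity, ?_, ?_, ?_, ?_⟩
    · field_simp
      ring
    · rw [hy]
      field_simp
      ring
    · intro t
      rw [key]
      rw [div_pos_iff_of_pos_right hd]
      unfold crs
      constructor
      · rintro (⟨h, _, _⟩ | ⟨_, _, h⟩)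
        · linarith
        · exact h
      · intro h
        exact Or.inr ⟨h1, h2, h⟩
    · intro t
      rw [key, key]
      rw [div_pos_iff_of_pos_right hd, div_pos_iff_of_pos_right hd]
      unfold crt
      constructor
      · rintro (⟨h, _, _⟩ | ⟨_, _, h, h'⟩)
        · linarith
        · exact ⟨h, not_lt.2 h'⟩
      · rintro ⟨h, h'⟩
        exact Or.inr ⟨h1, h2, h, not_lt.1 h'⟩

theorem IND_nocross (a b : E3) (h : (yc a < 0 ∧ yc b < 0) ∨ (0 ≤ yc a ∧ 0 ≤ yc b)) (t : ℝ) :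
    kap t a b = 0 ∧ chi t a b = 0 := by
  unfold kap chi crs crt
  constructor
  · rw [if_neg]
    rintro (⟨h1, h2, _⟩ | ⟨h1, h2, _⟩) <;> rcases h with ⟨h3, h4⟩ | ⟨h3, h4⟩ <;> linarith
  · rw [if_neg]
    rintro (⟨h1, h2, _⟩ | ⟨h1, h2, _⟩) <;> rcases h with ⟨h3, h4⟩ | ⟨h3, h4⟩ <;> linarith

/-- distance from a convex combination -/
theorem IND_conv (a b x : E3) (l m L : ℝ) (hl : 0 ≤ l) (hm : 0 ≤ m) (hlm : l + m = 1) (ha : dist a x ≤ L) (hb : dist b x ≤ L) :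
    dist (l • a + m • b) x ≤ L := by
  rw [dist_eq_norm] at *
  have h1 : l • a + m • b - x = l • (a - x) + m • (b - x) := by
    have : x = (l + m) • x := by rw [hlm, one_smul]
    nth_rewrite 1 [this]
    rw [add_smul, smul_sub, smul_sub]
    abel
  rw [h1]
  calc ‖l • (a - x) + m • (b - x)‖ ≤ ‖l • (a - x)‖ + ‖m • (b - x)‖ := norm_add_le _ _
    _ = l * ‖a - x‖ + m * ‖b - x‖ := by rw [norm_smul, norm_smul, Real.norm_eq_abs, Real.norm_eq_abs, abs_of_nonneg hl, abs_of_nonneg hm]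
    _ ≤ l * L + m * L := by
        have := mul_le_mul_of_nonneg_left ha hl
        have := mul_le_mul_of_nonneg_left hb hm
        linarith
    _ = L := by rw [← add_mul, hlm, one_mul]

/-- numbers -/
theorem IND_num (X Z c s L r : ℝ) (hL : 0 < L) (hr : 10 * L ≤ r) (hs0 : 0 < s) (hs : 10 * L ≤ r * s) (hcs : s ^ 2 + c ^ 2 = 1)
    (hX : |X| ≤ L) (hXZ : (r - L) ^ 2 ≤ X ^ 2 + Z ^ 2) :
    (0 < Z → 8 / 10 * r ≤ Z ∧ c * X - s * Z < 0 ∧ 0 < c * X + s * Z) ∧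
    (¬ 0 < Z → Z ≤ - (8 / 10 * r) ∧ 0 < c * X - s * Z ∧ c * X + s * Z < 0) := by
  have hX2 : X ^ 2 ≤ L ^ 2 := by
    rw [← sq_abs]; exact pow_le_pow_left₀ (abs_nonneg _) hX 2
  have hZ2 : (8 / 10 * r) ^ 2 ≤ Z ^ 2 := by nlinarith
  have hZ : 8 / 10 * r ≤ |Z| := by
    have := sq_le_sq.1 hZ2
    rwa [abs_of_nonneg (by linarith : 0 ≤ 8 / 10 * r)] at this
  have hc1 : |c| ≤ 1 := by
    apply abs_le_one_iff_mul_self_le_one.2
    nlinarith [sq_nonneg s]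
  have hcX : |c * X| ≤ L := by
    rw [abs_mul]
    calc |c| * |X| ≤ 1 * L := mul_le_mul hc1 hX (abs_nonneg _) zero_le_one
      _ = L := one_mul L
  have hcX1 := (abs_le.1 hcX).1
  have hcX2 := (abs_le.1 hcX).2
  constructor
  · intro hp
    rw [abs_of_pos hp] at hZ
    have h3 : 8 * L ≤ s * Z := by nlinarith
    exact ⟨hZ, by linarith, by linarith⟩
  · intro hp
    rw [abs_of_nonpos (not_lt.1 hp)] at hZ
    have h3 : s * Z ≤ - (8 * L) := by nlinarith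
    exact ⟨by linarith, by linarith, by linarith⟩

/-- one frame: exactly one of the two points on the positive side of the pole -/
theorem IND_side (θ : ℝ) (a b c w1 w2 : E3) (cc s L r : ℝ) (hL : 0 < L) (hr : 10 * L ≤ r) (hs0 : 0 < s) (hs : 10 * L ≤ r * s)
    (hcs : s ^ 2 + cc ^ 2 = 1) (h12 : dist w1 w2 ≤ L) (hy1 : yc w1 = 0) (hy2 : yc w2 = 0)
    (hn1 : r - L ≤ ‖w1‖) (hn2 : r - L ≤ ‖w2‖) (ha : dist w1 a ≤ L) (hb : dist w1 b ≤ L) (hc : dist w1 c ≤ L)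
    (hne : (0 < xc θ w1 ∧ ¬ 0 < xc θ w2) ∨ (¬ 0 < xc θ w1 ∧ 0 < xc θ w2)) :
    ((0 < zc θ a ∧ 0 < zc θ b ∧ 0 < zc θ c) ∧ (cc * xc θ w1 - s * zc θ w1 < 0 ∧ cc * xc θ w2 - s * zc θ w2 < 0) ∧
      (0 < cc * xc θ w1 + s * zc θ w1 ∧ 0 < cc * xc θ w2 + s * zc θ w2)) ∨
    (¬ (0 < zc θ a ∧ 0 < zc θ b ∧ 0 < zc θ c) ∧ (0 < cc * xc θ w1 - s * zc θ w1 ∧ 0 < cc * xc θ w2 - s * zc θ w2) ∧
      (cc * xc θ w1 + s * zc θ w1 < 0 ∧ cc * xc θ w2 + s * zc θ w2 < 0)) := by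
  have hx := IND_xle θ w1 w2 L h12
  have hz := IND_zle θ w1 w2 L h12
  have hx1 := (abs_le.1 hx).1
  have hx2 := (abs_le.1 hx).2
  have hz1 := (abs_le.1 hz).1
  have hz2 := (abs_le.1 hz).2
  have hX1 : |xc θ w1| ≤ L := by
    rw [abs_le]
    rcases hne with ⟨h, h'⟩ | ⟨h, h'⟩ <;> push Not at * <;> constructor <;> linarith
  have hX2 : |xc θ w2| ≤ L := by
    rw [abs_le]
    rcases hne with ⟨h, h'⟩ | ⟨h, h'⟩ <;> push Not at * <;> constructor <;> linarith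
  have hf1 := IND_frame θ w1
  have hf2 := IND_frame θ w2
  rw [hy1] at hf1
  rw [hy2] at hf2
  have hrL : 0 ≤ r - L := by linarith
  have hq1 : (r - L) ^ 2 ≤ xc θ w1 ^ 2 + zc θ w1 ^ 2 := by
    have := pow_le_pow_left₀ hrL hn1 2
    linarith
  have hq2 : (r - L) ^ 2 ≤ xc θ w2 ^ 2 + zc θ w2 ^ 2 := by
    have := pow_le_pow_left₀ hrL hn2 2
    linarith
  obtain ⟨p1, p1'⟩ := IND_num (xc θ w1) (zc θ w1) cc s L r hL hr hs0 hs hcs hX1 hq1
  obtain ⟨p2, p2'⟩ := IND_num (xc θ w2) (zc θ w2) cc s L r hL hr hs0 hs hcs hX2 hq2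
  have hza := abs_le.1 (IND_zle θ w1 a L ha)
  have hzb := abs_le.1 (IND_zle θ w1 b L hb)
  have hzc := abs_le.1 (IND_zle θ w1 c L hc)
  by_cases hZ : 0 < zc θ w1
  · left
    obtain ⟨e1, e2, e3⟩ := p1 hZ
    have hZ2 : 0 < zc θ w2 := by linarith
    obtain ⟨f1, f2, f3⟩ := p2 hZ2
    exact ⟨⟨by linarith [hza.2], by linarith [hzb.2], by linarith [hzc.2]⟩, ⟨e2, f2⟩, e3, f3⟩
  · right
    obtain ⟨e1, e2, e3⟩ := p1' hZ
    have hZ2 : ¬ 0 < zc θ w2 := by push Not; linarith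
    obtain ⟨f1, f2, f3⟩ := p2' hZ2
    exact ⟨fun h => by linarith [h.1, hza.1], ⟨e2, f2⟩, e3, f3⟩

theorem IND_bool (P1 P2 Q1 Q2 A0 At : Prop) (h1 : (P1 ∧ ¬ P2) ∨ (¬ P1 ∧ P2) → (A0 ∧ ¬ Q1 ∧ ¬ Q2) ∨ (¬ A0 ∧ Q1 ∧ Q2))
    (h2 : (Q1 ∧ ¬ Q2) ∨ (¬ Q1 ∧ Q2) → (At ∧ P1 ∧ P2) ∨ (¬ At ∧ ¬ P1 ∧ ¬ P2)) :
    ((if P1 ∧ ¬ Q1 then 1 else 0) + 0 + (if P2 ∧ ¬ Q2 then 1 else 0) : ZMod 2) =
      (if A0 then (if P1 then 1 else 0) + 0 + (if P2 then 1 else 0) else 0) +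
      (if At then (if Q1 then 1 else 0) + 0 + (if Q2 then 1 else 0) else 0) := by
  have h11 : (1 : ZMod 2) + 1 = 0 := by decide
  by_cases p1 : P1 <;> by_cases p2 : P2 <;> by_cases q1 : Q1 <;> by_cases q2 : Q2 <;> by_cases a0 : A0 <;> by_cases at' : At <;>
    simp_all

theorem IND_core (t L r : ℝ) (a b c : E3) (hL : 0 < L) (hr : 10 * L ≤ r) (ht0 : 0 < t) (htp : t < π) (hs : 10 * L ≤ r * sin t)
    (na : ‖a‖ = r) (hab : dist a b ≤ L) (hac : dist a c ≤ L) (hbc : dist b c ≤ L)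
    (h : (yc a < 0 ∧ 0 ≤ yc b ∧ 0 ≤ yc c) ∨ (0 ≤ yc a ∧ yc b < 0 ∧ yc c < 0)) :
    chi t a b + chi t b c + chi t a c = om 0 a b c + om t a b c := by
  have hsin : 0 < sin t := Real.sin_pos_of_pos_of_lt_pi ht0 htp
  obtain ⟨l1, m1, hl1, hm1, hlm1, hy1, hc1, hd1⟩ := IND_cross a b (by
    rcases h with ⟨h1, h2, h3⟩ | ⟨h1, h2, h3⟩
    · exact Or.inl ⟨h1, h2⟩
    · exact Or.inr ⟨h2, h1⟩)
  obtain ⟨l2, m2, hl2, hm2, hlm2, hy2, hc2, hd2⟩ := IND_cross a c (by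
    rcases h with ⟨h1, h2, h3⟩ | ⟨h1, h2, h3⟩
    · exact Or.inl ⟨h1, h3⟩
    · exact Or.inr ⟨h3, h1⟩)
  have hno : (yc b < 0 ∧ yc c < 0) ∨ (0 ≤ yc b ∧ 0 ≤ yc c) := by
    rcases h with ⟨h1, h2, h3⟩ | ⟨h1, h2, h3⟩
    · exact Or.inr ⟨h2, h3⟩
    · exact Or.inl ⟨h2, h3⟩
  set w1 : E3 := l1 • a + m1 • b with hw1
  set w2 : E3 := l2 • a + m2 • c with hw2
  have d1a : dist w1 a ≤ L := IND_conv a b a l1 m1 L hl1 hm1 hlm1 (by rw [dist_self]; exact hL.le) (by rw [dist_comm]; exact hab)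
  have d1b : dist w1 b ≤ L := IND_conv a b b l1 m1 L hl1 hm1 hlm1 hab (by rw [dist_self]; exact hL.le)
  have d1c : dist w1 c ≤ L := IND_conv a b c l1 m1 L hl1 hm1 hlm1 hac hbc
  have d2a : dist w2 a ≤ L := IND_conv a c a l2 m2 L hl2 hm2 hlm2 (by rw [dist_self]; exact hL.le) (by rw [dist_comm]; exact hac)
  have d21 : dist w2 w1 ≤ L := IND_conv a c w1 l2 m2 L hl2 hm2 hlm2 (by rw [dist_comm]; exact d1a) (by rw [dist_comm]; exact d1c)
  have d12 : dist w1 w2 ≤ L := by rw [dist_comm]; exact d21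
  have hnrm : ∀ w : E3, dist w a ≤ L → r - L ≤ ‖w‖ := by
    intro w hw
    rw [dist_eq_norm] at hw
    have h1 : ‖a‖ ≤ ‖w‖ + ‖w - a‖ := by
      have h2 : a = w - (w - a) := by abel
      calc ‖a‖ = ‖w - (w - a)‖ := by rw [← h2]
        _ ≤ ‖w‖ + ‖w - a‖ := norm_sub_le _ _
    linarith
  have n1 := hnrm w1 d1a
  have n2 := hnrm w2 d2a
  have hcs := Real.sin_sq_add_cos_sq t
  have F1 : (0 < xc 0 w1 ∧ ¬ 0 < xc 0 w2) ∨ (¬ 0 < xc 0 w1 ∧ 0 < xc 0 w2) →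
      ((0 < zc 0 a ∧ 0 < zc 0 b ∧ 0 < zc 0 c) ∧ ¬ 0 < xc t w1 ∧ ¬ 0 < xc t w2) ∨
      (¬ (0 < zc 0 a ∧ 0 < zc 0 b ∧ 0 < zc 0 c) ∧ 0 < xc t w1 ∧ 0 < xc t w2) := by
    intro hne
    rw [(IND_rot t w1).1, (IND_rot t w2).1]
    rcases IND_side 0 a b c w1 w2 (cos t) (sin t) L r hL hr hsin hs hcs d12 hy1 hy2 n1 n2 d1a d1b d1c hne with ⟨e1, e2, e3⟩ | ⟨e1, e2, e3⟩
    · exact Or.inl ⟨e1, not_lt.2 e2.1.le, not_lt.2 e2.2.le⟩
    · exact Or.inr ⟨e1, e2.1, e2.2⟩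
  have F2 : (0 < xc t w1 ∧ ¬ 0 < xc t w2) ∨ (¬ 0 < xc t w1 ∧ 0 < xc t w2) →
      ((0 < zc t a ∧ 0 < zc t b ∧ 0 < zc t c) ∧ 0 < xc 0 w1 ∧ 0 < xc 0 w2) ∨
      (¬ (0 < zc t a ∧ 0 < zc t b ∧ 0 < zc t c) ∧ ¬ 0 < xc 0 w1 ∧ ¬ 0 < xc 0 w2) := by
    intro hne
    rw [(IND_rot t w1).2, (IND_rot t w2).2]
    rcases IND_side t a b c w1 w2 (cos t) (sin t) L r hL hr hsin hs hcs d12 hy1 hy2 n1 n2 d1a d1b d1c hne with ⟨e1, e2, e3⟩ | ⟨e1, e2, e3⟩
    · exact Or.inl ⟨e1, e3.1, e3.2⟩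
    · exact Or.inr ⟨e1, not_lt.2 e3.1.le, not_lt.2 e3.2.le⟩
  have hB := IND_bool _ _ _ _ _ _ F1 F2
  have k1 : ∀ θ, kap θ a b = if 0 < xc θ w1 then 1 else 0 := by
    intro θ; unfold kap; exact if_congr (hc1 θ) rfl rfl
  have k2 : ∀ θ, kap θ a c = if 0 < xc θ w2 then 1 else 0 := by
    intro θ; unfold kap; exact if_congr (hc2 θ) rfl rfl
  have c1 : chi t a b = if 0 < xc 0 w1 ∧ ¬ 0 < xc t w1 then 1 else 0 := by
    unfold chi; exact if_congr (hd1 t) rfl rfl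
  have c2 : chi t a c = if 0 < xc 0 w2 ∧ ¬ 0 < xc t w2 then 1 else 0 := by
    unfold chi; exact if_congr (hd2 t) rfl rfl
  unfold om dkap
  rw [k1, k1, k2, k2, c1, c2, (IND_nocross b c hno t).1, (IND_nocross b c hno t).2, (IND_nocross b c hno 0).1]
  convert hB

theorem IND_chi_symm (t : ℝ) (a b : E3) : chi t a b = chi t b a := by
  unfold chi; exact if_congr or_comm rfl rfl

theorem IND_kap_symm (t : ℝ) (a b : E3) : kap t a b = kap t b a := by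
  unfold kap; exact if_congr or_comm rfl rfl

theorem IND_om_swap (t : ℝ) (a b c : E3) : om t a b c = om t b a c := by
  unfold om dkap
  refine if_congr (by tauto) ?_ rfl
  rw [IND_kap_symm t a b]; ring

theorem IND_om_rot (t : ℝ) (a b c : E3) : om t a b c = om t c a b := by
  unfold om dkap
  refine if_congr (by tauto) ?_ rfl
  rw [IND_kap_symm t b c, IND_kap_symm t a c]; ring

theorem IND_all (t : ℝ) (a b c : E3) (h : (yc a < 0 ∧ yc b < 0 ∧ yc c < 0) ∨ (0 ≤ yc a ∧ 0 ≤ yc b ∧ 0 ≤ yc c)) :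
    chi t a b + chi t b c + chi t a c = om 0 a b c + om t a b c := by
  have h1 : (yc a < 0 ∧ yc b < 0) ∨ (0 ≤ yc a ∧ 0 ≤ yc b) := by tauto
  have h2 : (yc b < 0 ∧ yc c < 0) ∨ (0 ≤ yc b ∧ 0 ≤ yc c) := by tauto
  have h3 : (yc a < 0 ∧ yc c < 0) ∨ (0 ≤ yc a ∧ 0 ≤ yc c) := by tauto
  unfold om dkap
  rw [(IND_nocross a b h1 t).1, (IND_nocross a b h1 t).2, (IND_nocross a b h1 0).1,
    (IND_nocross b c h2 t).1, (IND_nocross b c h2 t).2, (IND_nocross b c h2 0).1,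
    (IND_nocross a c h3 t).1, (IND_nocross a c h3 t).2, (IND_nocross a c h3 0).1]
  simp

theorem IND : IND_stmt := by
  intro t L r a b c hL hr ht0 htp hs na nb nc hab hac hbc
  rcases lt_or_ge (yc a) 0 with ha | ha <;> rcases lt_or_ge (yc b) 0 with hb | hb <;> rcases lt_or_ge (yc c) 0 with hc | hc
  · exact IND_all t a b c (Or.inl ⟨ha, hb, hc⟩)
  · -- c alone
    have := IND_core t L r c a b hL hr ht0 htp hs nc (by rw [dist_comm]; exact hac) (by rw [dist_comm]; exact hbc) hab (Or.inr ⟨hc, ha, hb⟩)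
    rw [IND_om_rot 0 a b c, IND_om_rot t a b c, ← this, IND_chi_symm t c a, IND_chi_symm t c b]; ring
  · -- b alone
    have := IND_core t L r b a c hL hr ht0 htp hs nb (by rw [dist_comm]; exact hab) hbc hac (Or.inr ⟨hb, ha, hc⟩)
    rw [IND_om_swap 0 a b c, IND_om_swap t a b c, ← this, IND_chi_symm t b a]; ring
  · exact IND_core t L r a b c hL hr ht0 htp hs na hab hac hbc (Or.inl ⟨ha, hb, hc⟩)
  · exact IND_core t L r a b c hL hr ht0 htp hs na hab hac hbc (Or.inr ⟨ha, hb, hc⟩)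
  · have := IND_core t L r b a c hL hr ht0 htp hs nb (by rw [dist_comm]; exact hab) hbc hac (Or.inl ⟨hb, ha, hc⟩)
    rw [IND_om_swap 0 a b c, IND_om_swap t a b c, ← this, IND_chi_symm t b a]; ring
  · have := IND_core t L r c a b hL hr ht0 htp hs nc (by rw [dist_comm]; exact hac) (by rw [dist_comm]; exact hbc) hab (Or.inl ⟨hc, ha, hb⟩)
    rw [IND_om_rot 0 a b c, IND_om_rot t a b c, ← this, IND_chi_symm t c a, IND_chi_symm t c b]; ring
  · exact IND_all t a b c (Or.inr ⟨ha, hb, hc⟩)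

end

end Pool.Agent.helper78.FS
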