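import Pool.Agent.helper78.FS.Spec

set_option autoImplicit false

namespace Pool.Agent.helper78.FS

open Finset Real
open Classical

noncomputable section

theorem KAP_sum {V : Type} [DecidableEq V] (l : Finset (Finset V)) (h2 : ∀ e ∈ l, e.card = 2) :
    ∑ a ∈ verts l, (l.filter (fun e => a ∈ e)).card = 2 * l.card := by
  have h := Finset.sum_card_bipartiteAbove_eq_sum_card_bipartiteBelow (s := verts l) (t := l) (fun (a : V) (e : Finset V) => a ∈ e)
  have h1 : ∀ a ∈ verts l, (l.filter (fun e => a ∈ e)).card = (Finset.bipartiteAbove (fun (a : V) (e : Finset V) => a ∈ e) l a).card := by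
    intro a _
    unfold Finset.bipartiteAbove
    congr 1
  rw [Finset.sum_congr rfl h1, h]
  have h3 : ∀ e ∈ l, (Finset.bipartiteBelow (fun (a : V) (e : Finset V) => a ∈ e) (verts l) e).card = 2 := by
    intro e he
    rw [← h2 e he]
    congr 1
    ext a
    simp only [Finset.mem_bipartiteBelow]
    constructor
    · exact fun h => h.2
    · intro ha
      exact ⟨Finset.mem_biUnion.2 ⟨e, he, ha⟩, ha⟩
  rw [Finset.sum_congr rfl h3, Finset.sum_const, smul_eq_mul, mul_comm]

theorem KAP_deg {V : Type} [DecidableEq V] (l : Finset (Finset V)) (hE : ∀ a, Even (l.filter (fun e => a ∈ e)).card) (a : V)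
    (ha : a ∈ verts l) : 2 ≤ (l.filter (fun e => a ∈ e)).card := by
  obtain ⟨e, he, hae⟩ := Finset.mem_biUnion.1 ha
  have h1 : 0 < (l.filter (fun e => a ∈ e)).card := Finset.card_pos.2 ⟨e, Finset.mem_filter.2 ⟨he, hae⟩⟩
  obtain ⟨k, hk⟩ := hE a
  omega

theorem KAP_le {V : Type} [DecidableEq V] (l : Finset (Finset V)) (h2 : ∀ e ∈ l, e.card = 2)
    (hE : ∀ a, Even (l.filter (fun e => a ∈ e)).card) : (verts l).card ≤ l.card := by
  have h1 := KAP_sum l h2
  have h3 : ∑ a ∈ verts l, 2 ≤ ∑ a ∈ verts l, (l.filter (fun e => a ∈ e)).card := Finset.sum_le_sum fun a ha => KAP_deg l hE a ha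
  rw [Finset.sum_const, smul_eq_mul, h1] at h3
  omega

theorem KAP_ne {V : Type} [DecidableEq V] (l : Finset (Finset V)) (h2 : ∀ e ∈ l, e.card = 2) (a b : V) (h : {a, b} ∈ l) : a ≠ b := by
  rintro rfl
  have := h2 _ h
  simp at this

theorem KAP_nb {V : Type} [DecidableEq V] (l : Finset (Finset V)) (h2 : ∀ e ∈ l, e.card = 2) (a b : V)
    (hd : (l.filter (fun e => a ∈ e)).card = 2) (hab : {a, b} ∈ l) :
    ∃ c, c ≠ b ∧ {a, c} ∈ l ∧ ∀ d, {a, d} ∈ l → d = b ∨ d = c := by
  obtain ⟨e1, e2, h12, hf⟩ := Finset.card_eq_two.1 hd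
  have key : ∀ e e' : Finset V, e ≠ e' → l.filter (fun e => a ∈ e) = {e, e'} → {a, b} = e →
      ∃ c, c ≠ b ∧ {a, c} ∈ l ∧ ∀ d, {a, d} ∈ l → d = b ∨ d = c := by
    intro e e' hne hf' hb
    have he' : e' ∈ l.filter (fun e => a ∈ e) := by rw [hf']; simp
    obtain ⟨he'l, hae'⟩ := Finset.mem_filter.1 he'
    obtain ⟨x, y, hxy, hxye⟩ := Finset.card_eq_two.1 (h2 e' he'l)
    obtain ⟨c, hc, hce⟩ : ∃ c, a ≠ c ∧ e' = {a, c} := by
      rw [hxye] at hae'
      rcases Finset.mem_insert.1 hae' with h | h
      · exact ⟨y, by rw [h]; exact hxy, by rw [hxye, h]⟩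
      · rw [Finset.mem_singleton] at h
        exact ⟨x, by rw [h]; exact hxy.symm, by rw [hxye, h, Finset.pair_comm]⟩
    refine ⟨c, ?_, by rw [← hce]; exact he'l, ?_⟩
    · rintro rfl
      exact hne (by rw [← hb, ← hce])
    · intro d hd'
      have hda := KAP_ne l h2 a d hd'
      have hdf : {a, d} ∈ l.filter (fun e => a ∈ e) := Finset.mem_filter.2 ⟨hd', by simp⟩
      rw [hf'] at hdf
      have hdm : d ∈ ({a, d} : Finset V) := by simp
      rcases Finset.mem_insert.1 hdf with h | h
      · left
        rw [h, ← hb] at hdm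
        rcases Finset.mem_insert.1 hdm with h' | h'
        · exact absurd h'.symm hda
        · exact Finset.mem_singleton.1 h'
      · right
        rw [Finset.mem_singleton] at h
        rw [h, hce] at hdm
        rcases Finset.mem_insert.1 hdm with h' | h'
        · exact absurd h'.symm hda
        · exact Finset.mem_singleton.1 h'
  have hbf : {a, b} ∈ l.filter (fun e => a ∈ e) := Finset.mem_filter.2 ⟨hab, by simp⟩
  rw [hf] at hbf
  rcases Finset.mem_insert.1 hbf with h | h
  · exact key e1 e2 h12 hf h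
  · exact key e2 e1 h12.symm (by rw [hf, Finset.pair_comm]) (Finset.mem_singleton.1 h)

theorem KAP_edge {V : Type} [DecidableEq V] (l : Finset (Finset V)) (h2 : ∀ e ∈ l, e.card = 2) (a : V) (ha : a ∈ verts l) :
    ∃ b, {a, b} ∈ l := by
  obtain ⟨e, he, hae⟩ := Finset.mem_biUnion.1 ha
  obtain ⟨x, y, hxy, hxye⟩ := Finset.card_eq_two.1 (h2 e he)
  simp only [id] at hae
  rw [hxye] at hae
  rcases Finset.mem_insert.1 hae with h | h
  · exact ⟨y, by rw [h, ← hxye]; exact he⟩
  · rw [Finset.mem_singleton] at h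
    exact ⟨x, by rw [h, Finset.pair_comm, ← hxye]; exact he⟩

theorem KAP_mem {V : Type} [DecidableEq V] (l : Finset (Finset V)) (a b : V) (h : {a, b} ∈ l) : a ∈ verts l ∧ b ∈ verts l :=
  ⟨Finset.mem_biUnion.2 ⟨_, h, by simp⟩, Finset.mem_biUnion.2 ⟨_, h, by simp⟩⟩

theorem KAP_hex {V : Type} [DecidableEq V] (l : Finset (Finset V)) (h2 : ∀ e ∈ l, e.card = 2)
    (hd : ∀ a ∈ verts l, (l.filter (fun e => a ∈ e)).card = 2) (h6 : (verts l).card = 6)
    (ht : ∀ a b c : V, a ≠ b → b ≠ c → a ≠ c → {a, b} ∈ l → {b, c} ∈ l → {a, c} ∈ l → False) :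
    ∃ u : ZMod 6 → V, Function.Injective u ∧ l = hexE u := by
  have hne := KAP_ne l h2
  have sy : ∀ a b : V, {a, b} ∈ l → {b, a} ∈ l := fun a b h => by rw [Finset.pair_comm]; exact h
  have mem := KAP_mem l
  have nb : ∀ a b : V, {a, b} ∈ l → ∃ c, c ≠ b ∧ {a, c} ∈ l ∧ ∀ d, {a, d} ∈ l → d = b ∨ d = c :=
    fun a b h => KAP_nb l h2 a b (hd a (mem a b h).1) h
  have hpos : 0 < (verts l).card := by omega
  obtain ⟨u0, hu0⟩ := Finset.card_pos.1 hpos
  obtain ⟨u1, h01⟩ := KAP_edge l h2 u0 hu0
  obtain ⟨u5, h51, h05, a0⟩ := nb u0 u1 h01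
  obtain ⟨u2, h20, h12, a1⟩ := nb u1 u0 (sy _ _ h01)
  obtain ⟨u4, h40, h54, a5⟩ := nb u5 u0 (sy _ _ h05)
  have n01 := hne _ _ h01
  have n05 := hne _ _ h05
  have n12 := hne _ _ h12
  have n54 := hne _ _ h54
  have n25 : u2 ≠ u5 := by
    rintro rfl
    exact ht u0 u1 u2 n01 n12 n05 h01 h12 h05
  have n41 : u4 ≠ u1 := by
    rintro rfl
    exact ht u0 u4 u5 n01 (Ne.symm n54) n05 h01 (sy _ _ h54) h05
  by_cases h24 : u2 = u4
  · -- a four cycle
    exfalso
    subst h24
    obtain ⟨w, hw1, hw2, a2⟩ := nb u2 u1 (sy _ _ h12)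
    have hw5 : u5 = w := by
      rcases a2 u5 (sy _ _ h54) with h | h
      · exact absurd h h51
      · exact h
    subst hw5
    have hsub : ({u0, u1, u2, u5} : Finset V) ⊆ verts l := by
      intro x hx
      simp only [Finset.mem_insert, Finset.mem_singleton] at hx
      rcases hx with rfl | rfl | rfl | rfl
      · exact hu0
      · exact (mem _ _ h12).1
      · exact (mem _ _ h12).2
      · exact (mem _ _ h05).2
    have hc4 : ({u0, u1, u2, u5} : Finset V).card = 4 := by
      rw [Finset.card_insert_of_notMem, Finset.card_insert_of_notMem, Finset.card_insert_of_notMem, Finset.card_singleton]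
      · simpa using n25
      · simp only [Finset.mem_insert, Finset.mem_singleton, not_or]
        exact ⟨n12, Ne.symm h51⟩
      · simp only [Finset.mem_insert, Finset.mem_singleton, not_or]
        exact ⟨n01, Ne.symm h20, n05⟩
    have hsd := Finset.card_sdiff_of_subset hsub
    rw [hc4, h6] at hsd
    obtain ⟨p, q, hpq, hpqs⟩ := Finset.card_eq_two.1 hsd
    have hp : p ∈ verts l \ {u0, u1, u2, u5} := by rw [hpqs]; simp
    obtain ⟨hpv, hp4⟩ := Finset.mem_sdiff.1 hp
    simp only [Finset.mem_insert, Finset.mem_singleton, not_or] at hp4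
    obtain ⟨p0, p1, p2, p5⟩ := hp4
    have hq : ∀ x, {p, x} ∈ l → x = q := by
      intro x hx
      have hxs : x ∈ verts l \ {u0, u1, u2, u5} := by
        rw [Finset.mem_sdiff]
        refine ⟨(mem _ _ hx).2, ?_⟩
        simp only [Finset.mem_insert, Finset.mem_singleton, not_or]
        refine ⟨?_, ?_, ?_, ?_⟩
        · rintro rfl
          rcases a0 p (sy _ _ hx) with h | h
          · exact p1 h
          · exact p5 h
        · rintro rfl
          rcases a1 p (sy _ _ hx) with h | h
          · exact p0 h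
          · exact p2 h
        · rintro rfl
          rcases a2 p (sy _ _ hx) with h | h
          · exact p1 h
          · exact p5 h
        · rintro rfl
          rcases a5 p (sy _ _ hx) with h | h
          · exact p0 h
          · exact p2 h
      rw [hpqs] at hxs
      simp only [Finset.mem_insert, Finset.mem_singleton] at hxs
      rcases hxs with h | h
      · exact absurd h.symm (hne _ _ hx)
      · exact h
    obtain ⟨x, hx⟩ := KAP_edge l h2 p hpv
    obtain ⟨y, hyx, hy, -⟩ := nb p x hx
    exact hyx ((hq y hy).trans (hq x hx).symm)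
  · have hsub : ({u0, u1, u2, u4, u5} : Finset V) ⊆ verts l := by
      intro x hx
      simp only [Finset.mem_insert, Finset.mem_singleton] at hx
      rcases hx with rfl | rfl | rfl | rfl | rfl
      · exact hu0
      · exact (mem _ _ h12).1
      · exact (mem _ _ h12).2
      · exact (mem _ _ h54).2
      · exact (mem _ _ h05).2
    have hc5 : ({u0, u1, u2, u4, u5} : Finset V).card = 5 := by
      rw [Finset.card_insert_of_notMem, Finset.card_insert_of_notMem, Finset.card_insert_of_notMem, Finset.card_insert_of_notMem, Finset.card_singleton]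
      · simpa using Ne.symm n54
      · simp only [Finset.mem_insert, Finset.mem_singleton, not_or]
        exact ⟨h24, n25⟩
      · simp only [Finset.mem_insert, Finset.mem_singleton, not_or]
        exact ⟨n12, Ne.symm n41, Ne.symm h51⟩
      · simp only [Finset.mem_insert, Finset.mem_singleton, not_or]
        exact ⟨n01, Ne.symm h20, Ne.symm h40, n05⟩
    have hsd := Finset.card_sdiff_of_subset hsub
    rw [hc5, h6] at hsd
    obtain ⟨u3, hu3⟩ := Finset.card_eq_one.1 hsd
    have hp : u3 ∈ verts l \ {u0, u1, u2, u4, u5} := by rw [hu3]; simp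
    obtain ⟨hpv, hp4⟩ := Finset.mem_sdiff.1 hp
    simp only [Finset.mem_insert, Finset.mem_singleton, not_or] at hp4
    obtain ⟨p0, p1, p2, p4, p5⟩ := hp4
    have hall : ∀ x ∈ verts l, x = u0 ∨ x = u1 ∨ x = u2 ∨ x = u3 ∨ x = u4 ∨ x = u5 := by
      intro x hx
      by_cases hx5 : x ∈ ({u0, u1, u2, u4, u5} : Finset V)
      · simp only [Finset.mem_insert, Finset.mem_singleton] at hx5
        tauto
      · have : x ∈ verts l \ {u0, u1, u2, u4, u5} := Finset.mem_sdiff.2 ⟨hx, hx5⟩
        rw [hu3, Finset.mem_singleton] at this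
        tauto
    have hq : ∀ x, {u3, x} ∈ l → x = u2 ∨ x = u4 := by
      intro x hx
      rcases hall x (mem _ _ hx).2 with rfl | rfl | rfl | rfl | rfl | rfl
      · rcases a0 _ (sy _ _ hx) with h | h
        · exact absurd h p1
        · exact absurd h p5
      · rcases a1 _ (sy _ _ hx) with h | h
        · exact absurd h p0
        · exact absurd h p2
      · exact Or.inl rfl
      · exact absurd rfl (hne _ _ hx)
      · exact Or.inr rfl
      · rcases a5 _ (sy _ _ hx) with h | h
        · exact absurd h p0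
        · exact absurd h p4
    obtain ⟨x, hx⟩ := KAP_edge l h2 u3 hpv
    obtain ⟨y, hyx, hy, -⟩ := nb u3 x hx
    have h3 : {u3, u2} ∈ l ∧ {u3, u4} ∈ l := by
      rcases hq x hx with h | h <;> rcases hq y hy with h' | h'
      · exact absurd (h'.trans h.symm) hyx
      · exact ⟨h ▸ hx, h' ▸ hy⟩
      · exact ⟨h' ▸ hy, h ▸ hx⟩
      · exact absurd (h'.trans h.symm) hyx
    obtain ⟨h32, h34⟩ := h3
    -- neighbours of u2 and u4
    have a2 : ∀ d, {u2, d} ∈ l → d = u1 ∨ d = u3 := by
      obtain ⟨w, hw1, hw2, a2⟩ := nb u2 u1 (sy _ _ h12)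
      intro d hd'
      rcases a2 u3 (sy _ _ h32) with h | h
      · exact absurd h p1
      · rw [h]; exact a2 d hd'
    have a4 : ∀ d, {u4, d} ∈ l → d = u5 ∨ d = u3 := by
      obtain ⟨w, hw1, hw2, a4⟩ := nb u4 u5 (sy _ _ h54)
      intro d hd'
      rcases a4 u3 (sy _ _ h34) with h | h
      · exact absurd h p5
      · rw [h]; exact a4 d hd'
    let u : Fin 6 → V := ![u0, u1, u2, u3, u4, u5]
    refine ⟨(u : ZMod 6 → V), ?_, ?_⟩
    · have hinj : Function.Injective u := by
        intro i j hij
        fin_cases i <;> fin_cases j <;> simp [u] at hij ⊢ <;>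
          first
          | exact absurd hij n01 | exact absurd hij.symm n01 | exact absurd hij n05 | exact absurd hij.symm n05
          | exact absurd hij n12 | exact absurd hij.symm n12 | exact absurd hij n54 | exact absurd hij.symm n54
          | exact absurd hij n25 | exact absurd hij.symm n25 | exact absurd hij n41 | exact absurd hij.symm n41
          | exact absurd hij h24 | exact absurd hij.symm h24 | exact absurd hij p0 | exact absurd hij.symm p0
          | exact absurd hij p1 | exact absurd hij.symm p1 | exact absurd hij p2 | exact absurd hij.symm p2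
          | exact absurd hij p4 | exact absurd hij.symm p4 | exact absurd hij p5 | exact absurd hij.symm p5
          | exact absurd hij h51 | exact absurd hij.symm h51 | exact absurd hij h20 | exact absurd hij.symm h20
          | exact absurd hij h40 | exact absurd hij.symm h40
      exact hinj
    · have e0 : ({u0, u1} : Finset V) ∈ hexE (u : ZMod 6 → V) := Finset.mem_image.2 ⟨(0 : ZMod 6), Finset.mem_univ _, rfl⟩
      have e1 : ({u1, u2} : Finset V) ∈ hexE (u : ZMod 6 → V) := Finset.mem_image.2 ⟨(1 : ZMod 6), Finset.mem_univ _, rfl⟩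
      have e2 : ({u2, u3} : Finset V) ∈ hexE (u : ZMod 6 → V) := Finset.mem_image.2 ⟨(2 : ZMod 6), Finset.mem_univ _, rfl⟩
      have e3 : ({u3, u4} : Finset V) ∈ hexE (u : ZMod 6 → V) := Finset.mem_image.2 ⟨(3 : ZMod 6), Finset.mem_univ _, rfl⟩
      have e4 : ({u4, u5} : Finset V) ∈ hexE (u : ZMod 6 → V) := Finset.mem_image.2 ⟨(4 : ZMod 6), Finset.mem_univ _, rfl⟩
      have e5 : ({u5, u0} : Finset V) ∈ hexE (u : ZMod 6 → V) := Finset.mem_image.2 ⟨(5 : ZMod 6), Finset.mem_univ _, rfl⟩
      have c0 : ({u1, u0} : Finset V) ∈ hexE (u : ZMod 6 → V) := by rw [Finset.pair_comm]; exact e0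
      have c1 : ({u2, u1} : Finset V) ∈ hexE (u : ZMod 6 → V) := by rw [Finset.pair_comm]; exact e1
      have c2 : ({u3, u2} : Finset V) ∈ hexE (u : ZMod 6 → V) := by rw [Finset.pair_comm]; exact e2
      have c3 : ({u4, u3} : Finset V) ∈ hexE (u : ZMod 6 → V) := by rw [Finset.pair_comm]; exact e3
      have c4 : ({u5, u4} : Finset V) ∈ hexE (u : ZMod 6 → V) := by rw [Finset.pair_comm]; exact e4
      have c5 : ({u0, u5} : Finset V) ∈ hexE (u : ZMod 6 → V) := by rw [Finset.pair_comm]; exact e5
      apply Finset.Subset.antisymm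
      · intro e he
        obtain ⟨x, y, hxy, rfl⟩ := Finset.card_eq_two.1 (h2 e he)
        rcases hall x (mem _ _ he).1 with rfl | rfl | rfl | rfl | rfl | rfl
        · rcases a0 y he with rfl | rfl
          · exact e0
          · exact c5
        · rcases a1 y he with rfl | rfl
          · exact c0
          · exact e1
        · rcases a2 y he with rfl | rfl
          · exact c1
          · exact e2
        · rcases hq y he with rfl | rfl
          · exact c2
          · exact e3
        · rcases a4 y he with rfl | rfl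
          · exact e4
          · exact c3
        · rcases a5 y he with rfl | rfl
          · exact e5
          · exact c4
      · intro e he
        obtain ⟨i, -, rfl⟩ := Finset.mem_image.1 he
        have hi : ∀ i : Fin 6, ({u i, u (i + 1)} : Finset V) ∈ l := by
          intro i
          fin_cases i
          · exact h01
          · exact h12
          · exact sy _ _ h32
          · exact h34
          · exact sy _ _ h54
          · exact sy _ _ h05
        exact hi i

theorem KAP : KAP_stmt := by
  intro V _ l h2 hE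
  have h1 := KAP_le l h2 hE
  refine ⟨h1, fun h6 ht => ⟨by omega, fun h0 => ?_⟩⟩
  have hn : (verts l).card = 6 := by omega
  have hm : l.card = 6 := by omega
  refine KAP_hex l h2 ?_ hn ht
  have hs := KAP_sum l h2
  by_contra hcon
  push Not at hcon
  obtain ⟨a, ha, hne⟩ := hcon
  have h3 : ∑ a ∈ verts l, 2 < ∑ a ∈ verts l, (l.filter (fun e => a ∈ e)).card :=
    Finset.sum_lt_sum (fun b hb => KAP_deg l hE b hb) ⟨a, ha, lt_of_le_of_ne (KAP_deg l hE a ha) (Ne.symm hne)⟩
  rw [Finset.sum_const, smul_eq_mul, hs] at h3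
  omega

end

end Pool.Agent.helper78.FS
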